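import Mathlib
import Pool.Agent.H78.Orb.Defs
import Pool.Agent.H78.Orb.Orbifold
import Pool.Agent.H78.Orb.Mani

/-!
Every closed connected smooth 4-manifold admits an orbifold singular Einstein metric.

The Einstein orbifold is the quotient of the round four-sphere by the quaternion group of order
eight acting as the suspension of its free action on the three-sphere; it has two singular points.
The manifold is mapped onto it by collapsing to points the two sides of a copy of `S³ / Q8` (times
an open interval) lying inside a coordinate ball.
-/

open scoped Manifold ContDiff

namespace Pool.Agent.Results.MP_ce7934_gt.EveryFourManifold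

open Pool.Agent.H78.Orb

/-- Every closed (compact, Hausdorff, without boundary) connected smooth manifold `M` modelled on
a normed space `E` of dimension 4, in particular every closed simply connected 4-manifold, admits
an orbifold singular Einstein metric. -/
theorem result (E : Type*) [NormedAddCommGroup E] [NormedSpace ℝ E]
    (hE : Module.finrank ℝ E = 4) (M : Type*) [TopologicalSpace M] [ChartedSpace E M]
    [IsManifold 𝓘(ℝ, E) ∞ M] [T2Space M] [CompactSpace M] [ConnectedSpace M] :
    HasOrbifoldSingularEinsteinMetric E M := by
  obtain ⟨π, hπ⟩ := exists_resolution (M := M) hE
  exact ⟨V4, N4, inferInstance, inferInstance, inferInstance, inferInstance, orb, π,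
    inferInstance, inferInstance, hπ⟩

end Pool.Agent.Results.MP_ce7934_gt.EveryFourManifold
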